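import Pool.Agent.H699.T.Bnd

/-!
# Lower bound for the tour from the final sets
-/

set_option autoImplicit false

namespace Pool.Agent.H356.T.EST

open Finset Classical Pool.Agent.H699.T

lemma mem_of_toFinset {α : Type} (inst : DecidableEq α) (l : List α) (x : α)
    (h : x ∈ @List.toFinset α inst l) : x ∈ l :=
  (@List.mem_toFinset α inst l x).1 h

lemma isMet_of {N k : ℕ} {d : Fin N → Fin N → ℕ} (h : IMet k d) :
    IsMet (fun x y => (d x y : ℝ)) where
  self x := by simp [h.self x]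
  symm x y := by simp [h.symm x y]
  tri x y z := by exact_mod_cast h.tri x y z

lemma walk_nonneg {α : Type} (d : α → α → ℝ) (hd : ∀ x y, 0 ≤ d x y) :
    ∀ l : List α, 0 ≤ walk d l
  | [] => le_rfl
  | [_] => le_rfl
  | a :: b :: l => add_nonneg (hd a b) (walk_nonneg d hd (b :: l))

lemma cyc_nonneg {α : Type} (d : α → α → ℝ) (hd : ∀ x y, 0 ≤ d x y) (l : List α) :
    0 ≤ cyc d l := by
  cases l with
  | nil => exact le_rfl
  | cons a l => exact walk_nonneg d hd _

lemma tspI_nonneg {N : ℕ} (d : Fin N → Fin N → ℕ) : 0 ≤ tspI d := by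
  unfold tspI tsp
  refine Real.sInf_nonneg ?_
  rintro c ⟨l, -, rfl⟩
  exact cyc_nonneg _ (fun x y => Nat.cast_nonneg _) l

theorem t_EST : S_TSPLE → S_TSPATT → S_LOW → S_USB → S_EST := by
  intro hLE hATT hLOW hUSB N k M Kp d hd s hs hsd XX Zf hXX hZf hcw
  have hmet := isMet_of hd
  have hsum : ((∑ v ∈ XX, s.w v : ℕ) : ℝ) - ((∑ v ∈ Zf, s.w v : ℕ) : ℝ) =
      ∑ v ∈ XX \ Zf, (s.w v : ℝ) := by
    have h := Finset.sum_sdiff (f := fun v => (s.w v : ℝ)) hZf
    push_cast
    linarith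
  by_cases hc : ∃ x ∈ XX, ∃ y ∈ XX, s.top x ≠ s.top y
  · obtain ⟨x0, hx0, y0, hy0, hne⟩ := hc
    have h := hLOW (Fin N) (fun x y => (d x y : ℝ)) hmet XX s.ch (fun v => (s.w v : ℝ)) Zf XX
      (3 / 2) (fun v => Nat.cast_nonneg _) ?_ ?_
    · rw [hsum]
      have h2 : tsp (fun x y => (d x y : ℝ)) XX ≤ tspI d := by
        obtain ⟨l, -, hl, hl2⟩ := hATT (Fin N) (fun x y => (d x y : ℝ)) hmet univ
        unfold tspI
        rw [← hl2]
        refine hLE (Fin N) _ hmet XX l fun x _ => ?_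
        have h3 : x ∈ univ := Finset.mem_univ x
        rw [← hl] at h3
        exact mem_of_toFinset _ l x h3
      have h3 : (0 : ℝ) ≤ 2 * (k * M) := by positivity
      have h4 : 2 * ∑ v ∈ XX \ Zf, (s.w v : ℝ) ≤ 3 / 2 * tsp (fun x y => (d x y : ℝ)) XX := by
        refine le_trans (le_of_eq ?_) h
        congr 1
        refine Finset.sum_congr ?_ fun _ _ => rfl
        ext v
        simp only [Finset.mem_sdiff]
      linarith
    · intro x hx y hy
      have h1 := hcw x hx y hy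
      unfold US.cw at h1
      rw [hsd] at h1
      have h2 : (2 : ℝ) * ∑ v ∈ symmDiff (s.ch x) (s.ch y) \ Zf, (s.w v : ℝ) ≤ 3 * (d x y : ℝ) := by
        exact_mod_cast h1
      have h3 : ∑ v ∈ symmDiff (s.ch x) (s.ch y) \ Zf, (s.w v : ℝ) ≤ 3 / 2 * (d x y : ℝ) := by
        linarith
      refine le_trans (le_of_eq (Finset.sum_congr ?_ fun _ _ => rfl)) h3
      ext v
      simp only [Finset.mem_sdiff, Finset.mem_symmDiff]
    · intro v hv
      refine ⟨⟨v, hv, hs.mem v (hXX hv)⟩, ?_⟩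
      by_cases h1 : s.top x0 = s.top v
      · refine ⟨y0, hy0, fun h2 => hne ?_⟩
        rw [h1, hs.topc y0 (hXX hy0) v h2]
      · exact ⟨x0, hx0, fun h2 => h1 (hs.topc x0 (hXX hx0) v h2).symm⟩
  · push Not at hc
    have h0 := tspI_nonneg d
    have h1 : ∑ v ∈ XX, s.w v ≤ k * M := by
      rcases XX.eq_empty_or_nonempty with h | ⟨x, hx⟩
      · rw [h, Finset.sum_empty]
        exact Nat.zero_le _
      · obtain ⟨-, -, -, -, h5, -⟩ := hUSB N s k M Kp hs
        refine le_trans ?_ (h5 (s.top x))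
        refine Finset.sum_le_sum_of_subset fun y hy => ?_
        unfold US.un
        rw [Finset.mem_filter]
        exact ⟨hXX hy, hc y hy x hx⟩
    have h2 : ((∑ v ∈ XX, s.w v : ℕ) : ℝ) ≤ (k : ℝ) * M := by exact_mod_cast h1
    have h3 : (0 : ℝ) ≤ ((∑ v ∈ Zf, s.w v : ℕ) : ℝ) := Nat.cast_nonneg _
    linarith

end Pool.Agent.H356.T.EST
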