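import Pool.Agent.H699.T.Bnd

/-!
# Locality of the caps of the dense stage
-/

set_option autoImplicit false

namespace Pool.Agent.H356.T.LGL

open Finset Classical Pool.Agent.H699.T

/-- The units with top in `A` agree in two unit systems. -/
structure Agr {N : ℕ} (s s' : US N) (A : Finset (Fin N)) : Prop where
  mem : ∀ x ∈ s.VA A, x ∈ s'.VA A ∧ s'.top x = s.top x ∧ s'.ch x = s.ch x ∧ s'.w x = s.w x ∧
    s'.d x = s.d x

lemma nonempty_un {N k M Kp : ℕ} {s : US N} (hs : s.Ok k M Kp) {l x : Fin N} (hx : x ∈ s.un l) :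
    x ∈ s.V0 ∧ s.top x = l ∧ l ∈ s.V0 ∧ s.top l = l := by
  unfold US.un at hx
  rw [Finset.mem_filter] at hx
  obtain ⟨h1, h2⟩ := hx
  have h3 := hs.topm x h1
  rw [h2] at h3
  exact ⟨h1, h2, h3⟩

lemma agr_of {N k M Kp : ℕ} {s s' : US N} (hs : s.Ok k M Kp) {A : Finset (Fin N)}
    (h : ∀ l ∈ A, s.vinf l = s'.vinf l) : Agr s s' A := by
  refine ⟨fun x hx => ?_⟩
  unfold US.VA at hx
  rw [Finset.mem_filter] at hx
  obtain ⟨hx0, hxA⟩ := hx
  have hxu : x ∈ s.un (s.top x) := by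
    unfold US.un
    rw [Finset.mem_filter]
    exact ⟨hx0, rfl⟩
  obtain ⟨-, -, h1, h2⟩ := nonempty_un hs hxu
  have h3 := h (s.top x) hxA
  unfold US.vinf at h3
  simp only [Prod.mk.injEq] at h3
  obtain ⟨-, e2, e3, e4⟩ := h3
  have e5 := congrFun e4 x
  rw [h2] at e2
  rw [h2, ← e2] at e3
  rw [h2, ← e2, ← e3, if_pos hxu, if_pos hxu, Prod.mk.injEq, Prod.mk.injEq] at e5
  have hxu' := hxu
  rw [e3] at hxu'
  unfold US.un at hxu'
  rw [Finset.mem_filter] at hxu'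
  unfold US.VA
  rw [Finset.mem_filter]
  refine ⟨⟨hxu'.1, ?_⟩, hxu'.2, e5.1.symm, e5.2.1.symm, e5.2.2.symm⟩
  rw [hxu'.2]
  exact hxA

lemma VA_eq {N : ℕ} {s s' : US N} {A : Finset (Fin N)} (h : Agr s s' A) (h' : Agr s' s A) :
    s.VA A = s'.VA A := by
  ext x
  exact ⟨fun hx => (h.mem x hx).1, fun hx => (h'.mem x hx).1⟩

lemma res_eq {N : ℕ} {s s' : US N} {A : Finset (Fin N)} (h : Agr s s' A) (h' : Agr s' s A) :
    s.res (s.VA A) = s'.res (s'.VA A) := by
  have hVA := VA_eq h h'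
  have hsub : ∀ t : US N, t.V0 ∩ t.VA A = t.VA A := by
    intro t
    unfold US.VA
    rw [Finset.inter_eq_right]
    exact Finset.filter_subset _ _
  unfold US.res
  rw [US.mk.injEq, hsub, hsub, hVA]
  refine ⟨rfl, ?_, ?_, ?_, ?_⟩
  · funext x
    by_cases hx : x ∈ s'.VA A
    · rw [if_pos hx, if_pos hx, (h'.mem x hx).2.1]
    · rw [if_neg hx, if_neg hx]
  · funext x
    by_cases hx : x ∈ s'.VA A
    · rw [if_pos hx, if_pos hx, (h'.mem x hx).2.2.1]
    · rw [if_neg hx, if_neg hx]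
  · funext x
    by_cases hx : x ∈ s'.VA A
    · rw [if_pos hx, if_pos hx, (h'.mem x hx).2.2.2.1]
    · rw [if_neg hx, if_neg hx]
  · funext x y
    by_cases hx : x ∈ s'.VA A ∧ y ∈ s'.VA A
    · rw [if_pos hx, if_pos hx, (h'.mem x hx.1).2.2.2.2]
    · rw [if_neg hx, if_neg hx]

lemma ZA_eq {N : ℕ} {s s' : US N} {A : Finset (Fin N)} (h : Agr s s' A) (h' : Agr s' s A) :
    s.ZA A = s'.ZA A := by
  unfold US.ZA
  rw [res_eq h h']

lemma hA_eq {N k M Kp : ℕ} {s s' : US N} (hs : s.Ok k M Kp) (hUSB : S_USB)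
    {A : Finset (Fin N)} (h : Agr s s' A) (h' : Agr s' s A) (A1 Z : Finset (Fin N)) :
    s.hA A A1 Z = s'.hA A A1 Z := by
  funext x
  unfold US.hA
  by_cases hx : x ∈ s.VA A
  · obtain ⟨g1, g2, g3, g4, g5⟩ := h.mem x hx
    have hx' : x ∈ s'.V0 ∧ s'.top x ∈ A := by
      unfold US.VA at g1
      exact Finset.mem_filter.1 g1
    have hx0 : x ∈ s.V0 ∧ s.top x ∈ A := by
      unfold US.VA at hx
      exact Finset.mem_filter.1 hx
    have hpt : s.pt Z x = s'.pt Z x := by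
      unfold US.pt
      rw [g3]
      refine Finset.sum_congr rfl fun v hv => ?_
      rw [Finset.mem_sdiff] at hv
      have hxu : x ∈ s.un (s.top x) := by
        unfold US.un
        rw [Finset.mem_filter]
        exact ⟨hx0.1, rfl⟩
      obtain ⟨-, -, -, h4, -⟩ := hUSB N s k M Kp hs
      have hv2 := h4 _ x hxu hv.1
      obtain ⟨v1, v2, -, -⟩ := nonempty_un hs hv2
      have hvA : v ∈ s.VA A := by
        unfold US.VA
        rw [Finset.mem_filter]
        refine ⟨v1, ?_⟩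
        rw [v2]
        exact hx0.2
      exact ((h.mem v hvA).2.2.2.1).symm
    rw [g2, hpt]
    by_cases hA1 : s.top x ∈ A1
    · rw [if_pos ⟨hx0.1, hx0.2, hA1⟩, if_pos ⟨hx'.1, hx0.2, hA1⟩]
    · rw [if_neg (fun hh => hA1 hh.2.2), if_neg (fun hh => hA1 hh.2.2)]
  · have hx' : x ∉ s'.VA A := fun hh => hx (h'.mem x hh).1
    unfold US.VA at hx hx'
    rw [Finset.mem_filter] at hx hx'
    rw [if_neg (fun hh => hx ⟨hh.1, hh.2.1⟩), if_neg (fun hh => hx' ⟨hh.1, hh.2.1⟩)]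

lemma k1_eq {N k M Kp : ℕ} {s s' : US N} (hs : s.Ok k M Kp) (hUSB : S_USB)
    {A : Finset (Fin N)} (h : Agr s s' A) (h' : Agr s' s A) (A1 : Finset (Fin N)) :
    s.k1 Kp A A1 = s'.k1 Kp A A1 := by
  unfold US.k1
  rw [ZA_eq h h', hA_eq hs hUSB h h']
  funext y
  unfold c1
  congr 1
  refine Finset.filter_congr fun u _ => forall_congr' fun x => ?_
  refine imp_congr_right fun hx => ?_
  have hxA : x ∈ s'.VA A := by
    by_contra hc
    apply hx
    unfold US.VA at hc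
    rw [Finset.mem_filter] at hc
    unfold US.hA
    rw [if_neg (fun hh => hc ⟨hh.1, hh.2.1⟩)]
  rw [(h'.mem x hxA).2.2.2.2]

lemma k2_eq {N k M Kp : ℕ} {s s' : US N} (hs : s.Ok k M Kp) (hUSB : S_USB)
    {A : Finset (Fin N)} (h : Agr s s' A) (h' : Agr s' s A) (A1 B : Finset (Fin N))
    (hB : ∀ x ∈ B, s.d x = s'.d x) : s.k2 Kp A A1 B = s'.k2 Kp A A1 B := by
  unfold US.k2
  rw [k1_eq hs hUSB h h']
  funext y
  unfold c2
  congr 1
  refine Finset.filter_congr fun u _ => forall_congr' fun x => ?_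
  refine imp_congr_right fun hx => ?_
  rw [hB x hx]

theorem t_LGL : S_LOCBASIC → S_USB → S_LGL := by
  intro hLB hUSB N k M Kp c0 D s hok hloc A A1 B
  obtain ⟨hmono, hbind, hdet, hconst, -, hrow, hpi⟩ := hLB
  rcases Nat.eq_zero_or_pos N with hN | hN
  · subst hN
    refine hmono _ _ _ D D 0 _ _ (hconst _ _ _ D _ fun d _ d' _ => ?_) (Set.Subset.refl D)
      (Nat.zero_le _)
    have : d = d' := by
      funext x
      exact x.elim0
    rw [this]
  · have hinh : Inhabited (Fin N) := ⟨⟨0, hN⟩⟩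
    have h1 := hpi (Fin N) ℕ _ (Fin N) D c0 A (fun v d => (s d).vinf v) (fun v _ => hloc v)
    refine hbind _ _ _ _ D _ _ _ _ h1 fun a => ?_
    have hrow' : ∀ (D' : Set (Fin N → Fin N → ℕ)) (x : Fin N),
        LocOn D' N (fun d => d x) := by
      intro D' x
      have h := hrow (Fin N) ℕ D' x
      rw [Fintype.card_fin] at h
      exact h
    refine hdet _ _ _ _ _ _ _ _ (hpi (Fin N) ℕ (Fin N → ℕ) (Fin N) _ N B
      (fun x d => d x) fun x _ => hrow' _ x) fun d hd d' hd' hG2 => ?_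
    obtain ⟨hdD, hda⟩ := hd
    obtain ⟨hdD', hda'⟩ := hd'
    obtain ⟨ok1, e1⟩ := hok d hdD
    obtain ⟨ok2, e2⟩ := hok d' hdD'
    have hv : ∀ l ∈ A, (s d).vinf l = (s d').vinf l := by
      intro l hl
      have h3 := congrFun (hda.trans hda'.symm) l
      simp only [if_pos hl] at h3
      exact h3
    have a1 : Agr (s d) (s d') A := agr_of ok1 hv
    have a2 : Agr (s d') (s d) A := agr_of ok2 fun l hl => (hv l hl).symm
    have hB : ∀ x ∈ B, (s d).d x = (s d').d x := by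
      intro x hx
      have h3 := congrFun hG2 x
      simp only [if_pos hx] at h3
      rw [e1, e2]
      exact h3
    rw [Prod.mk.injEq]
    exact ⟨k1_eq ok1 hUSB a1 a2 A1, k2_eq ok1 hUSB a1 a2 A1 B hB⟩

end Pool.Agent.H356.T.LGL
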