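import Pool.Agent.H699.T.Bnd

/-!
# The forest as a unit system with its bounds
-/

set_option autoImplicit false

namespace Pool.Agent.H356.T.SYS

open Finset Classical Pool.Agent.H699.T

lemma isMet_of {N k : ℕ} {d : Fin N → Fin N → ℕ} (h : IMet k d) :
    IsMet (fun x y => (d x y : ℝ)) where
  self x := by simp [h.self x]
  symm x y := by simp [h.symm x y]
  tri x y z := by exact_mod_cast h.tri x y z

lemma mem_gen {α : Type} (inst : DecidableEq α) (A B Z : Finset α) (v : α)
    (h3 : (v ∈ A ∧ v ∉ B) ∨ (v ∈ B ∧ v ∉ A)) (h2 : v ∉ Z) : v ∈ symmDiff A B \ Z := by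
  rw [Finset.mem_sdiff, Finset.mem_symmDiff]
  exact ⟨h3, h2⟩

theorem t_SYS : S_KEY → S_PAR → S_PRIM2 → S_UNIT → S_U2 → S_MSTLOW → S_SYS := by
  intro hKEY hPAR _ hUNIT hU2 hMST N k L Δ d R hd hR
  obtain ⟨hkey, hkd⟩ := hKEY N d hd.symm
  obtain ⟨r0, hr0⟩ := hR
  have hR' : R.Nonempty := ⟨r0, hr0⟩
  have hN : 0 < N := lt_of_le_of_lt (Nat.zero_le _) r0.2
  obtain ⟨-, hpar, -, -⟩ := hPAR N (key d) hkey R hR'
  obtain ⟨hu1, hu2, -, hu4⟩ := hUNIT N (key d) hkey R hR' L Δ
  have hmet := isMet_of hd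
  set W0 : Finset (Fin N) := V0 (key d) R L Δ with hW0
  have hV : (usys L Δ R d).V0 = W0 := rfl
  have hw : ∀ v, (usys L Δ R d).w v = d v (par (key d) R v) := fun v => rfl
  have hnR : ∀ v ∈ W0, v ∉ R := by
    intro v hv
    rw [hW0] at hv
    unfold V0 at hv
    exact (Finset.mem_filter.1 hv).2.1
  refine ⟨?_, ?_, ?_⟩
  · refine ⟨fun x hx => (hu1 x hx).1, fun x hx => (hu1 x hx).2.1,
      fun x hx y hy => (hu1 x hx).2.2.2.2.2.1 y hy, fun x hx => ?_, fun l => hu2 l,
      fun x => hd.bd _ _, fun x hx => ?_, fun x y => hd.symm x y⟩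
    · obtain ⟨-, h2, -, -, h5, h6, -⟩ := hu1 x hx
      exact ⟨h2 h5, h6 _ h5⟩
    · obtain ⟨-, -, -, h4, -⟩ := hu1 x hx
      calc ∑ v ∈ (usys L Δ R d).ch x, (usys L Δ R d).w v
          ≤ ∑ _v ∈ (usys L Δ R d).ch x, k := Finset.sum_le_sum fun v _ => hd.bd _ _
        _ = ((usys L Δ R d).ch x).card * k := by rw [Finset.sum_const, smul_eq_mul]
        _ ≤ L * k := Nat.mul_le_mul_right _ h4
        _ = k * L := Nat.mul_comm _ _
  · refine hMST (Fin N) d hmet W0 (fun v => d v (par (key d) R v)) r0 ?_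
    intro t v hv htv
    have hT : ∀ v : Fin N, t < d v (par (key d) R v) →
        (t + 1) * (N * N) ≤ key d v (par (key d) R v) := by
      intro v htv
      have hne : v ≠ par (key d) R v := by
        intro he
        rw [← he, hd.self] at htv
        omega
      by_contra hc
      push Not at hc
      have := (hkd v _ t hne).1 hc
      omega
    have hstep : ∀ a b : Fin N, d a b ≤ t → key d a b < (t + 1) * (N * N) := by
      intro a b hab
      by_cases he : a = b
      · subst he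
        rw [hkey.self]
        positivity
      · exact (hkd a b t he).2 hab
    have hconn : ∀ a b : Fin N, Relation.ReflTransGen (fun a b => d a b ≤ t) a b →
        Conn (key d) ((t + 1) * (N * N)) a b := fun a b h =>
      Relation.ReflTransGen.mono hstep a b h
    obtain ⟨p1, p2⟩ := hpar ((t + 1) * (N * N)) v (hnR v hv) (hT v htv)
    refine ⟨fun h => p1 r0 hr0 (hconn _ _ h), fun v' hv' hne htv' h => ?_⟩
    exact p2 v' (hnR v' hv') hne (hT v' htv') (hconn _ _ h)
  · obtain ⟨rk, hrk, hp0, hanc⟩ := hu4 r0 hr0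
    obtain ⟨Z, -, hZ, hup⟩ := hU2 (Fin N) d hmet r0 (pT (key d) R L Δ r0) rk hrk hp0
    have hpT : ∀ v ∈ W0, pT (key d) R L Δ r0 v = par (key d) R v := by
      intro v hv
      unfold pT
      rw [if_pos hv]
    refine ⟨Z ∩ W0, Finset.inter_subset_right, ?_, ?_⟩
    · intro x hx y hy
      refine le_trans (Nat.mul_le_mul_left 4 ?_) (hZ x y)
      unfold US.cw
      have hchx : anc (pT (key d) R L Δ r0) r0 x ∩ W0 = (usys L Δ R d).ch x := hanc x hx
      have hchy : anc (pT (key d) R L Δ r0) r0 y ∩ W0 = (usys L Δ R d).ch y := hanc y hy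
      rw [← hchx, ← hchy]
      have hsub : ∀ v ∈ symmDiff (anc (pT (key d) R L Δ r0) r0 x ∩ W0)
          (anc (pT (key d) R L Δ r0) r0 y ∩ W0) \ (Z ∩ W0), v ∈ W0 ∧ v ∉ Z ∧
          ((v ∈ anc (pT (key d) R L Δ r0) r0 x ∧ v ∉ anc (pT (key d) R L Δ r0) r0 y) ∨
          (v ∈ anc (pT (key d) R L Δ r0) r0 y ∧ v ∉ anc (pT (key d) R L Δ r0) r0 x)) := by
        intro v hv
        rw [Finset.mem_sdiff, Finset.mem_symmDiff] at hv
        simp only [Finset.mem_inter, not_and] at hv
        obtain ⟨h1, h2⟩ := hv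
        rcases h1 with ⟨⟨h3, h4⟩, h5⟩ | ⟨⟨h3, h4⟩, h5⟩
        · exact ⟨h4, fun hz => h2 hz h4, Or.inl ⟨h3, fun hh => h5 hh h4⟩⟩
        · exact ⟨h4, fun hz => h2 hz h4, Or.inr ⟨h3, fun hh => h5 hh h4⟩⟩
      calc _ = ∑ v ∈ symmDiff (anc (pT (key d) R L Δ r0) r0 x ∩ W0)
            (anc (pT (key d) R L Δ r0) r0 y ∩ W0) \ (Z ∩ W0),
            d v (pT (key d) R L Δ r0 v) := by
            refine Finset.sum_congr rfl fun v hv => ?_
            rw [hpT v (hsub v hv).1]
            rfl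
        _ ≤ _ := by
            refine Finset.sum_le_sum_of_subset fun v hv => ?_
            obtain ⟨-, h2, h3⟩ := hsub v hv
            exact mem_gen _ _ _ _ _ h3 h2
    · unfold tspI
      refine hup.trans ?_
      have h1 : ∀ S : Finset (Fin N), ∑ v ∈ S, d v (pT (key d) R L Δ r0 v) ≤
          ∑ v ∈ W0, (usys L Δ R d).w v + k * (univ \ W0).card := by
        intro S
        calc ∑ v ∈ S, d v (pT (key d) R L Δ r0 v)
            ≤ ∑ v ∈ univ, d v (pT (key d) R L Δ r0 v) :=
              Finset.sum_le_sum_of_subset (Finset.subset_univ _)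
          _ = ∑ v ∈ univ \ W0, d v (pT (key d) R L Δ r0 v) +
              ∑ v ∈ W0, d v (pT (key d) R L Δ r0 v) :=
              (Finset.sum_sdiff (Finset.subset_univ _)).symm
          _ ≤ ∑ _v ∈ univ \ W0, k + ∑ v ∈ W0, (usys L Δ R d).w v := by
              refine add_le_add (Finset.sum_le_sum fun v _ => hd.bd _ _)
                (le_of_eq (Finset.sum_congr rfl fun v hv => ?_))
              rw [hpT v hv]
              rfl
          _ = _ := by
              rw [Finset.sum_const, smul_eq_mul, Nat.mul_comm, Nat.add_comm]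
      have h2 : ∑ v ∈ Z ∩ W0, (usys L Δ R d).w v ≤ ∑ v ∈ Z, d v (pT (key d) R L Δ r0 v) := by
        calc ∑ v ∈ Z ∩ W0, (usys L Δ R d).w v
            = ∑ v ∈ Z ∩ W0, d v (pT (key d) R L Δ r0 v) := by
              refine Finset.sum_congr rfl fun v hv => ?_
              rw [hpT v (Finset.mem_inter.1 hv).2]
              rfl
          _ ≤ _ := Finset.sum_le_sum_of_subset Finset.inter_subset_left
      have h1' : ∀ S : Finset (Fin N), ((∑ v ∈ S, d v (pT (key d) R L Δ r0 v) : ℕ) : ℝ) ≤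
          ((∑ v ∈ W0, (usys L Δ R d).w v : ℕ) : ℝ) + k * ((univ \ W0).card : ℝ) := by
        intro S
        exact_mod_cast h1 S
      have h2' : ((∑ v ∈ Z ∩ W0, (usys L Δ R d).w v : ℕ) : ℝ) ≤
          ((∑ v ∈ Z, d v (pT (key d) R L Δ r0 v) : ℕ) : ℝ) := by
        exact_mod_cast h2
      rw [hV]
      have h3 := h1' (@Finset.erase _ (fun a b => Classical.propDecidable (a = b)) univ r0)
      linarith

end Pool.Agent.H356.T.SYS
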