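import Pool.Agent.H699.T.Base

/-!
# Upper bound with a maximal greedy set
-/

set_option autoImplicit false

namespace Pool.Agent.H356.T.U2

open Finset Classical Pool.Agent.H699.T

theorem t_U2 : S_U1 → S_U2 := by
  intro hU1 α _ d hd r p rk hrk hpr
  obtain ⟨E, hE, hmax⟩ := Finset.exists_max_image
    ((univ : Finset (Finset (α × α))).filter (fun E => 5 * ∑ e ∈ E, d e.1 e.2 ≤
      4 * ∑ v ∈ E.biUnion (fun e => symmDiff (anc p r e.1) (anc p r e.2)), d v (p v)))
    (fun E => (E.biUnion (fun e => symmDiff (anc p r e.1) (anc p r e.2))).card)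
    ⟨∅, by simp⟩
  rw [Finset.mem_filter] at hE
  obtain ⟨-, hE⟩ := hE
  refine ⟨E.biUnion (fun e => symmDiff (anc p r e.1) (anc p r e.2)), ?_, ?_, ?_⟩
  · intro h
    rw [Finset.mem_biUnion] at h
    obtain ⟨e, -, he⟩ := h
    rw [Finset.mem_symmDiff] at he
    rcases he with he | he
    · have h2 := he.1
      unfold anc at h2
      exact (Finset.mem_filter.1 h2).2.1 rfl
    · have h2 := he.1
      unfold anc at h2
      exact (Finset.mem_filter.1 h2).2.1 rfl
  · intro x y
    by_contra hc
    push Not at hc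
    set Z := E.biUnion (fun e => symmDiff (anc p r e.1) (anc p r e.2)) with hZ
    set C := symmDiff (anc p r x) (anc p r y) with hC
    have hne : (C \ Z).Nonempty := by
      by_contra h
      rw [Finset.not_nonempty_iff_eq_empty] at h
      rw [h] at hc
      simp at hc
    have hnot : (x, y) ∉ E := by
      intro h
      obtain ⟨z, hz⟩ := hne
      rw [Finset.mem_sdiff] at hz
      exact hz.2 (Finset.mem_biUnion.2 ⟨(x, y), h, hz.1⟩)
    have hbi : (insert (x, y) E).biUnion
        (fun e => symmDiff (anc p r e.1) (anc p r e.2)) = C ∪ Z := by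
      rw [Finset.biUnion_insert]
    have hsum : ∑ v ∈ C ∪ Z, d v (p v) = ∑ v ∈ C \ Z, d v (p v) + ∑ v ∈ Z, d v (p v) := by
      rw [← Finset.sdiff_union_self_eq_union, Finset.sum_union Finset.sdiff_disjoint]
    have hin : insert (x, y) E ∈ (univ : Finset (Finset (α × α))).filter
        (fun E => 5 * ∑ e ∈ E, d e.1 e.2 ≤
        4 * ∑ v ∈ E.biUnion (fun e => symmDiff (anc p r e.1) (anc p r e.2)), d v (p v)) := by
      rw [Finset.mem_filter]
      refine ⟨Finset.mem_univ _, ?_⟩
      rw [hbi, hsum, Finset.sum_insert hnot]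
      simp only
      omega
    have h := hmax _ hin
    simp only [hbi] at h
    have hlt : Z.card < (C ∪ Z).card := by
      apply Finset.card_lt_card
      refine ⟨Finset.subset_union_right, fun hs => ?_⟩
      obtain ⟨z, hz⟩ := hne
      rw [Finset.mem_sdiff] at hz
      exact hz.2 (hs (Finset.mem_union_left _ hz.1))
    omega
  · have h := hU1 α (fun x y => (d x y : ℝ)) hd r p rk hrk hpr E
    refine h.trans ?_
    have hE' : (5 : ℝ) * ∑ e ∈ E, (d e.1 e.2 : ℝ) ≤ 4 * ∑ v ∈ E.biUnion
        (fun e => symmDiff (anc p r e.1) (anc p r e.2)), (d v (p v) : ℝ) := by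
      exact_mod_cast hE
    push_cast
    linarith

end Pool.Agent.H356.T.U2
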